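import Pool.Agent.Y6.S.Stm
import Pool.Agent.Y6.S.Conv

/-!
# Project SK: sizes of rotated and weighted vectors

`t_WT : S_WT`.
-/

set_option autoImplicit false

open Set Filter Topology

namespace Pool.Agent.Y86.SK

open Pool.Agent.Y5.D Pool.Agent.Y5.E
open Pool.Agent.Y5.S2 (Sq6 Rot2 Om)
open Pool.Agent.Y710.EP (nm Pg Pu Po ww Nice nm_nn)
open Pool.Agent.Y6.S (wt rt w1 wα wβ sq65 S_WT)

variable {J : Type}

/-! ### Norms -/

lemma nm_le_mul {y z : Ix J → ℝ} {X : ℝ} (hX : 0 ≤ X) (hz : Summable fun i => z i ^ 2)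
    (h : ∀ a, |y a| ≤ X * |z a|) : nm y ≤ X * nm z := by
  have h1 : ∀ a, y a ^ 2 ≤ X ^ 2 * z a ^ 2 := by
    intro a
    rw [← sq_abs (y a), ← sq_abs (z a), ← mul_pow]
    exact pow_le_pow_left₀ (abs_nonneg _) (h a) 2
  have h2 : Summable fun i => y i ^ 2 :=
    Summable.of_nonneg_of_le (fun i => sq_nonneg _) h1 (hz.mul_left _)
  unfold nm
  have e : X * √(∑' i, z i ^ 2) = √(∑' i, X ^ 2 * z i ^ 2) := by
    rw [tsum_mul_left, Real.sqrt_mul (sq_nonneg X), Real.sqrt_sq hX]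
  rw [e]
  exact Real.sqrt_le_sqrt (h2.tsum_le_tsum h1 (hz.mul_left _))

lemma nm_le {y z : Ix J → ℝ} (hz : Summable fun i => z i ^ 2) (h : ∀ a, |y a| ≤ |z a|) :
    nm y ≤ nm z := by
  have := nm_le_mul (y := y) (z := z) zero_le_one hz (fun a => by rw [one_mul]; exact h a)
  rwa [one_mul] at this

lemma summable_of_le {y z : Ix J → ℝ} (hz : Summable fun i => z i ^ 2)
    (h : ∀ a, |y a| ≤ |z a|) : Summable fun i => y i ^ 2 :=
  Summable.of_nonneg_of_le (fun i => sq_nonneg _) (fun a => by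
    rw [← sq_abs (y a), ← sq_abs (z a)]
    exact pow_le_pow_left₀ (abs_nonneg _) (h a) 2) hz

lemma nm_add_le {u a b : Ix J → ℝ} (ha : Summable fun i => a i ^ 2)
    (hb : Summable fun i => b i ^ 2) (h : ∀ i, u i ^ 2 = a i ^ 2 + b i ^ 2) :
    nm u ≤ nm a + nm b := by
  have h1 : ∑' i, u i ^ 2 = nm a ^ 2 + nm b ^ 2 := by
    unfold nm
    rw [Real.sq_sqrt (tsum_nonneg fun i => sq_nonneg _),
      Real.sq_sqrt (tsum_nonneg fun i => sq_nonneg _), ← ha.tsum_add hb]
    exact tsum_congr h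
  have h2 := nm_nn a
  have h3 := nm_nn b
  have h4 : nm u = √(∑' i, u i ^ 2) := rfl
  rw [h4, h1]
  refine Real.sqrt_le_iff.2 ⟨by positivity, ?_⟩
  nlinarith [mul_nonneg h2 h3]

/-! ### The involution -/

/-- the involution of the modes -/
def ev {g : J → ℕ} {σ : J → J} {τ : J → ℝ} (h : Rot2 g σ τ) : Ix J ≃ Ix J :=
  Equiv.sumCongr (Equiv.refl ℕ) ⟨σ, σ, h.inv, h.inv⟩

lemma rt_term {g : J → ℕ} {σ : J → J} {τ : J → ℝ} (h : Rot2 g σ τ) (z : Ix J → ℝ) (P : ℕ → Prop)
    [DecidablePred P] (hP : ∀ j, P (g (σ j)) ↔ P (g j)) (i : Ix J) :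
    (if P (gr g i) then Po (rt σ τ z) i else 0) ^ 2 =
      (if P (gr g (ev h i)) then Po z (ev h i) else 0) ^ 2 := by
  rcases i with n | j
  · change (if P n then (0 : ℝ) else 0) ^ 2 = (if P n then (0 : ℝ) else 0) ^ 2
    rfl
  · change (if P (g j) then τ j * z (Sum.inr (σ j)) else 0) ^ 2 =
      (if P (g (σ j)) then z (Sum.inr (σ j)) else 0) ^ 2
    by_cases hj : P (g j)
    · rw [if_pos hj, if_pos ((hP j).2 hj), mul_pow, h.unit, one_mul]
    · rw [if_neg hj, if_neg (fun h1 => hj ((hP j).1 h1))]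

lemma rt_sum {g : J → ℕ} {σ : J → J} {τ : J → ℝ} (h : Rot2 g σ τ) (z : Ix J → ℝ) (P : ℕ → Prop)
    [DecidablePred P] (hP : ∀ j, P (g (σ j)) ↔ P (g j)) :
    ∑' i, (if P (gr g i) then Po (rt σ τ z) i else 0) ^ 2 =
      ∑' i, (if P (gr g i) then Po z i else 0) ^ 2 := by
  rw [← (ev h).tsum_eq fun i => (if P (gr g i) then Po z i else 0) ^ 2]
  exact tsum_congr fun i => rt_term h z P hP i

lemma wt_w1 (g : J → ℕ) (G : ℕ) (z : Ix J → ℝ) (i : Ix J) :
    wt g (w1 G) z i = if gr g i / 2 = G then Po z i else 0 := by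
  rcases i with n | j
  · change (0 : ℝ) = if n / 2 = G then (0 : ℝ) else 0
    split_ifs <;> rfl
  · change (if g j / 2 = G then (1 : ℝ) else 0) * z (Sum.inr j) =
      if g j / 2 = G then z (Sum.inr j) else 0
    split_ifs
    · rw [one_mul]
    · rw [zero_mul]

lemma Po_abs (z : Ix J → ℝ) (i : Ix J) : |Po z i| ≤ |z i| := Pool.Agent.Y710.EP.Po_le z i

lemma ite_abs (P : Prop) [Decidable P] (x : ℝ) : |if P then x else 0| ≤ |x| := by
  split_ifs
  · exact le_rfl
  · simp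

/-! ### The weights -/

lemma w_bound {x y : ℝ} (hx : 0 < x) (hy : 0 < y) (h : 2 * y ≤ x ∨ 2 * x ≤ y) :
    |x / (x ^ 2 - y ^ 2)| ≤ 2 / x ∧ |y / (x ^ 2 - y ^ 2)| ≤ 2 / x := by
  have key : 3 / 4 * x ^ 2 ≤ |x ^ 2 - y ^ 2| ∧ y * x ≤ 2 * |x ^ 2 - y ^ 2| := by
    rcases h with h | h
    · have h1 : 0 ≤ x ^ 2 - y ^ 2 := by nlinarith
      rw [abs_of_nonneg h1]
      constructor <;> nlinarith
    · have h1 : x ^ 2 - y ^ 2 ≤ 0 := by nlinarith
      rw [abs_of_nonpos h1]
      constructor <;> nlinarith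
  have hpos : 0 < |x ^ 2 - y ^ 2| := lt_of_lt_of_le (by positivity) key.1
  rw [abs_div, abs_div, abs_of_pos hx, abs_of_pos hy, div_le_div_iff₀ hpos hx,
    div_le_div_iff₀ hpos hx]
  constructor
  · nlinarith [key.1]
  · exact key.2

lemma Om_step {κ μ lam Λ M : ℝ} {L C ℓ : ℕ → ℝ} {B : ℕ → ℕ → ℝ}
    (hs : Sq6 κ μ lam Λ M L C ℓ B) {Q : ℝ} (hQ : 0 < Q) (G : ℕ) :
    0 < Om Q κ L G ∧ ∀ k : ℕ, 2 * Om Q κ L G ≤ Om Q κ L (G + (k + 1)) := by
  have hμ : 10 ^ 30 ≤ μ := hs.μ_big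
  have hμ1 : 1 ≤ μ := le_trans (by norm_num) hμ
  have hL0 : 0 < L 0 := lt_of_lt_of_le one_pos hs.L0
  have hκL : ∀ n, κ ^ n * L n = μ ^ n * L 0 := by
    intro n
    induction n with
    | zero => simp
    | succ n ih =>
      rw [hs.L_succ, pow_succ, pow_succ, show κ ^ n * κ * (lam * L n) =
        (κ * lam) * (κ ^ n * L n) by ring, ih, ← hs.μ_eq]
      ring
  have hOm : ∀ n, Om Q κ L n = Q * (μ ^ (2 * n) * L 0) := fun n => by
    unfold Om
    rw [hκL]
  refine ⟨by rw [hOm]; positivity, fun k => ?_⟩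
  rw [hOm, hOm]
  have h1 : 2 * μ ^ (2 * G) ≤ μ ^ (2 * (G + (k + 1))) := by
    have e : 2 * (G + (k + 1)) = 2 * G + (2 * k + 1) + 1 := by ring
    rw [e, pow_succ μ (2 * G + (2 * k + 1)), pow_add]
    have h2 : 1 ≤ μ ^ (2 * k + 1) := one_le_pow₀ hμ1
    have h3 : 0 ≤ μ ^ (2 * G) := by positivity
    have h4 : μ ^ (2 * G) ≤ μ ^ (2 * G) * μ ^ (2 * k + 1) := le_mul_of_one_le_right h3 h2
    have h5 : (2 : ℝ) ≤ μ := le_trans (by norm_num) hμ
    calc 2 * μ ^ (2 * G) = μ ^ (2 * G) * 2 := by ring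
      _ ≤ (μ ^ (2 * G) * μ ^ (2 * k + 1)) * μ := mul_le_mul h4 h5 (by norm_num) (by positivity)
  have h2 : 0 ≤ Q * L 0 := by positivity
  calc 2 * (Q * (μ ^ (2 * G) * L 0)) = (2 * μ ^ (2 * G)) * (Q * L 0) := by ring
    _ ≤ μ ^ (2 * (G + (k + 1))) * (Q * L 0) := mul_le_mul_of_nonneg_right h1 h2
    _ = _ := by ring

theorem t_WT : S_WT := by
  intro J g σ τ κ μ lam Λ M L C ℓ B c hK hs hR z hz
  have hs5 := sq65 hs
  have hz2 : Summable fun i => z i ^ 2 := hz.sq hs5
  have hPo2 : Summable fun i => Po z i ^ 2 := summable_of_le hz2 (Po_abs z)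
  have hite : ∀ P : ℕ → Prop, ∀ _ : DecidablePred P,
      Summable fun i => (if P (gr g i) then Po z i else 0) ^ 2 := fun P _ =>
    summable_of_le (z := Po z) hPo2 fun i => ite_abs _ _
  refine ⟨fun ω X hω => ⟨fun p => ?_, fun m => ?_⟩, fun Q G q hQ => ?_, fun p => ?_,
    fun G => ?_, fun G => ?_, fun G => ?_⟩
  · have hX : 0 ≤ X := (abs_nonneg _).trans (hω 0)
    have h1 : Summable fun i => Pg g p (Po z) i ^ 2 :=
      summable_of_le hPo2 fun i => ite_abs _ _
    refine nm_le_mul hX h1 fun a => ?_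
    unfold Pg
    split_ifs
    · rcases a with n | j
      · change |(0 : ℝ)| ≤ X * |(0 : ℝ)|
        simp
      · change |ω (g j / 2) * z (Sum.inr j)| ≤ X * |z (Sum.inr j)|
        rw [abs_mul]
        exact mul_le_mul_of_nonneg_right (hω _) (abs_nonneg _)
    · simp
  · have hX : 0 ≤ X := (abs_nonneg _).trans (hω 0)
    have h1 : Summable fun i => Pu g m (Po z) i ^ 2 :=
      summable_of_le hPo2 fun i => ite_abs _ _
    refine nm_le_mul hX h1 fun a => ?_
    unfold Pu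
    split_ifs
    · rcases a with n | j
      · change |(0 : ℝ)| ≤ X * |(0 : ℝ)|
        simp
      · change |ω (g j / 2) * z (Sum.inr j)| ≤ X * |z (Sum.inr j)|
        rw [abs_mul]
        exact mul_le_mul_of_nonneg_right (hω _) (abs_nonneg _)
    · simp
  · obtain ⟨hG, hG2⟩ := Om_step hs hQ G
    obtain ⟨hq, hq2⟩ := Om_step hs hQ q
    unfold wα wβ
    by_cases h : q = G
    · rw [if_pos h, if_pos h, abs_zero]
      exact ⟨by positivity, by positivity⟩
    · rw [if_neg h, if_neg h]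
      apply w_bound hG hq
      rcases Nat.lt_or_gt_of_ne h with h1 | h1
      · left
        obtain ⟨k, hk⟩ := Nat.exists_eq_add_of_lt h1
        have := hq2 k
        rw [hk, add_assoc]
        exact this
      · right
        obtain ⟨k, hk⟩ := Nat.exists_eq_add_of_lt h1
        have := hG2 k
        rw [hk, add_assoc]
        exact this
  · -- the rotation in one group
    have hP : ∀ j, g (σ j) / 2 = p / 2 ↔ g j / 2 = p / 2 := fun j => by rw [hR.grp]
    have hsum : Summable fun i => (if gr g i / 2 = p / 2 then Po (rt σ τ z) i else 0) ^ 2 := by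
      have h1 := (ev hR).summable_iff.2 (hite (fun q => q / 2 = p / 2) inferInstance)
      refine h1.congr fun i => ?_
      exact (rt_term hR z (fun q => q / 2 = p / 2) hP i).symm
    calc ww g (rt σ τ z) p
        ≤ nm (fun i => if gr g i / 2 = p / 2 then Po (rt σ τ z) i else 0) := by
          refine nm_le hsum fun i => ?_
          unfold Pg
          by_cases hi : gr g i = p
          · rw [if_pos hi, if_pos (by rw [hi])]
          · rw [if_neg hi, abs_zero]
            exact abs_nonneg _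
      _ = nm (fun i => if gr g i / 2 = p / 2 then Po z i else 0) := by
          unfold nm
          rw [rt_sum hR z (fun q => q / 2 = p / 2) hP]
      _ ≤ ww g z (2 * (p / 2)) + ww g z (2 * (p / 2) + 1) := by
          refine nm_add_le (hite (fun q => q = 2 * (p / 2)) inferInstance)
            (hite (fun q => q = 2 * (p / 2) + 1) inferInstance) fun i => ?_
          unfold Pg
          by_cases h1 : gr g i = 2 * (p / 2)
          · have a1 : gr g i / 2 = p / 2 := by omega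
            have a2 : ¬gr g i = 2 * (p / 2) + 1 := by omega
            rw [if_pos a1, if_pos h1, if_neg a2]
            ring
          · by_cases h2 : gr g i = 2 * (p / 2) + 1
            · have a1 : gr g i / 2 = p / 2 := by omega
              rw [if_pos a1, if_neg h1, if_pos h2]
              ring
            · have a1 : ¬gr g i / 2 = p / 2 := by omega
              rw [if_neg a1, if_neg h1, if_neg h2]
              ring
  · have hP : ∀ j, 2 * G ≤ g (σ j) ↔ 2 * G ≤ g j := fun j => by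
      have := hR.grp j
      omega
    change √(∑' i, (if 2 * G ≤ gr g i then Po (rt σ τ z) i else 0) ^ 2) =
      √(∑' i, (if 2 * G ≤ gr g i then Po z i else 0) ^ 2)
    rw [rt_sum hR z (fun q => 2 * G ≤ q) hP]
  · have hP : ∀ j, g (σ j) / 2 = G ↔ g j / 2 = G := fun j => by rw [hR.grp]
    unfold nm
    simp only [wt_w1]
    rw [rt_sum hR z (fun q => q / 2 = G) hP]
  · -- antisymmetry
    have h1 := (ev hR).tsum_eq fun i => wt g (w1 G) z i * rt σ τ (wt g (w1 G) z) i
    have h2 : ∀ i, wt g (w1 G) z (ev hR i) * rt σ τ (wt g (w1 G) z) (ev hR i) =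
        -(wt g (w1 G) z i * rt σ τ (wt g (w1 G) z) i) := by
      intro i
      rcases i with n | j
      · change (0 : ℝ) * 0 = -(0 * 0)
        ring
      · change wt g (w1 G) z (Sum.inr (σ j)) * (τ (σ j) * wt g (w1 G) z (Sum.inr (σ (σ j)))) =
          -(wt g (w1 G) z (Sum.inr j) * (τ j * wt g (w1 G) z (Sum.inr (σ j))))
        rw [hR.inv, hR.skew]
        ring
    rw [tsum_congr h2, tsum_neg] at h1
    linarith

end Pool.Agent.Y86.SK
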